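import Pool.Agent.U95.GL.KrnA

set_option autoImplicit false

/-!
Project GL (helper481, MP_842e08_an), package KRN (helper95): smoothness of the area function of a
function vanishing on the triple of a dyadic interval.
-/

open MeasureTheory Filter Topology Set
open scoped ENNReal NNReal Real

namespace Pool.Agent.U95.GL

open Pool.Agent.U481.HW Pool.Agent.U481.GL

/-- the integral with the kernel `k` -/
noncomputable def GG (k : ℝ → ℝ → ℝ) (g : ℝ → ℂ) (q : ℝ × ℝ) : ℂ :=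
  ∫ t, (k (q.1 - t) q.2 : ℂ) * g t

theorem meas_GG {k : ℝ → ℝ → ℝ} (hk : Measurable fun p : ℝ × ℝ => k p.1 p.2) {g : ℝ → ℂ}
    (hg : Integrable g) : StronglyMeasurable (GG k g) := by
  have h1 : GG k g = fun q => ∫ t, (k (q.1 - t) q.2 : ℂ) * hg.1.mk g t := by
    funext q
    unfold GG
    apply integral_congr_ae
    filter_upwards [hg.1.ae_eq_mk] with t ht
    rw [← ht]
  rw [h1]
  have h2 : StronglyMeasurable fun p : (ℝ × ℝ) × ℝ =>
      (k (p.1.1 - p.2) p.1.2 : ℂ) * hg.1.mk g p.2 := by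
    apply StronglyMeasurable.mul
    · apply Measurable.stronglyMeasurable
      apply Complex.measurable_ofReal.comp
      exact hk.comp (by fun_prop : Measurable fun p : (ℝ × ℝ) × ℝ => (p.1.1 - p.2, p.1.2))
    · exact hg.1.stronglyMeasurable_mk.comp_measurable measurable_snd
  exact h2.integral_prod_right'

theorem int_GG {k : ℝ → ℝ → ℝ} (hk : Measurable fun p : ℝ × ℝ => k p.1 p.2)
    (hbd : ∀ u y, 0 < y → |k u y| ≤ 1 / y ^ 2) {g : ℝ → ℂ} (hg : Integrable g) (z y : ℝ)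
    (hy : 0 < y) : Integrable fun t => (k (z - t) y : ℂ) * g t := by
  refine Integrable.mono' (hg.norm.const_mul (1 / y ^ 2)) ?_ (Eventually.of_forall fun t => ?_)
  · apply AEStronglyMeasurable.mul _ hg.1
    apply Measurable.aestronglyMeasurable
    apply Complex.measurable_ofReal.comp
    exact hk.comp (by fun_prop : Measurable fun t : ℝ => (z - t, y))
  · rw [norm_mul, Complex.norm_real, Real.norm_eq_abs]
    exact mul_le_mul_of_nonneg_right (hbd _ _ hy) (norm_nonneg _)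

theorem dif_int {k k' : ℝ → ℝ → ℝ} (hkm : Measurable fun p : ℝ × ℝ => k p.1 p.2)
    (hbd : ∀ u y, 0 < y → |k u y| ≤ 1 / y ^ 2)
    (hk : ∀ u y, 0 < y → HasDerivAt (fun u => k u y) (k' u y) u)
    (hb : ∀ u y, 0 < y → |k' u y| ≤ 2 / √(u ^ 2 + y ^ 2) ^ 3) {g : ℝ → ℂ} (hg : Integrable g)
    {r : ℤ × ℤ} (h0 : ∀ y ∈ D3 r, g y = 0) {x x' : ℝ} (hx : x ∈ DD r) (hx' : x' ∈ DD r) :
    ∫⁻ q in cone 1 x', ‖GG k g (q + (x - x', 0)) - GG k g q‖ₑ ^ 2 ≤
      ENNReal.ofReal 186624 * MM volume (fun y => ‖g y‖ₑ) x' ^ 2 := by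
  have hl : (0 : ℝ) < 2 ^ r.1 := by positivity
  have hann := ann hg h0 hx'
  set l : ℝ := 2 ^ r.1 with hldef
  set M := MM volume (fun y => ‖g y‖ₑ) x' with hM
  set ν : Measure ℝ := volume.withDensity (fun t => ‖g t‖ₑ) with hν
  have hfin : IsFiniteMeasure ν := isFiniteMeasure_withDensity hg.2.ne
  set I : ℝ≥0∞ := ∫⁻ t, ENNReal.ofReal (1 / (x' - t) ^ 2) ∂ν with hI
  have hen : AEMeasurable (fun t => ‖g t‖ₑ) volume := hg.aestronglyMeasurable.enorm
  have hIle : I ≤ ENNReal.ofReal (8 / l) * M := by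
    rw [hI, hν, lintegral_withDensity_eq_lintegral_mul₀ hen (by fun_prop)]
    refine le_trans (le_of_eq ?_) hann
    apply lintegral_congr
    intro t
    rw [Pi.mul_apply, mul_comm]
  -- the kernel on the right
  set b2 : ℝ → ℝ → ℝ := fun t y => 2916 * l ^ 2 * (x' - t) ^ 2 / ((x' - t) ^ 2 + y ^ 2) ^ 3 with hb2
  have hcm : MeasurableSet (cone 1 x') := by
    apply measurableSet_lt
    · fun_prop
    · fun_prop
  have hpt : ∀ q ∈ cone 1 x', ‖GG k g (q + (x - x', 0)) - GG k g q‖ₑ ^ 2 ≤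
      I * ∫⁻ t, ENNReal.ofReal (b2 t q.2) ∂ν := by
    intro q hq
    have hw : |q.1 - x'| < q.2 := by
      have : |q.1 - x'| < 1 * q.2 := hq
      rwa [one_mul] at this
    have hy : 0 < q.2 := lt_of_le_of_lt (abs_nonneg _) hw
    have e1 : GG k g (q + (x - x', 0)) - GG k g q =
        ∫ t, ((k (x + (q.1 - x') - t) q.2 - k (x' + (q.1 - x') - t) q.2 : ℝ) : ℂ) * g t := by
      unfold GG
      have e2 : (q + (x - x', 0)).1 = x + (q.1 - x') := by
        show q.1 + (x - x') = _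
        ring
      have e3 : (q + (x - x', 0)).2 = q.2 := by
        show q.2 + 0 = _
        ring
      have e4 : x' + (q.1 - x') = q.1 := by ring
      rw [e2, e3, e4, ← integral_sub (int_GG hkm hbd hg _ _ hy) (int_GG hkm hbd hg _ _ hy)]
      apply integral_congr_ae
      refine Eventually.of_forall fun t => ?_
      simp only
      push_cast
      ring
    have e5 : ‖GG k g (q + (x - x', 0)) - GG k g q‖ₑ ≤
        ∫⁻ t, ENNReal.ofReal (1 / |x' - t|) * ENNReal.ofReal (√(b2 t q.2)) ∂ν := by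
      rw [e1, hν, lintegral_withDensity_eq_lintegral_mul₀ hen (by
        apply Measurable.aemeasurable
        simp only [hb2]
        fun_prop)]
      refine (enorm_integral_le_lintegral_enorm _).trans (lintegral_mono fun t => ?_)
      rw [Pi.mul_apply, enorm_mul, mul_comm]
      by_cases ht : t ∈ D3 r
      · rw [h0 t ht]
        simp
      · refine mul_le_mul_right ?_ _
        have h1 := diff_aux hk hb hx hx' ht hw
        have h2 := Pool.Agent.U211.HW.Kernel.dist_ge hx' ht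
        have h3 : 0 < |x' - t| := lt_of_lt_of_le hl h2
        rw [← ENNReal.ofReal_mul (by positivity), ← ofReal_norm, Complex.norm_real, Real.norm_eq_abs]
        apply ENNReal.ofReal_le_ofReal
        rw [one_div, ← div_eq_inv_mul, le_div_iff₀ h3]
        apply Real.le_sqrt_of_sq_le
        rw [mul_pow, sq_abs (x' - t)]
        calc |k (x + (q.1 - x') - t) q.2 - k (x' + (q.1 - x') - t) q.2| ^ 2 * (x' - t) ^ 2
            ≤ 2916 * l ^ 2 / ((x' - t) ^ 2 + q.2 ^ 2) ^ 3 * (x' - t) ^ 2 :=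
              mul_le_mul_of_nonneg_right h1 (sq_nonneg _)
          _ = b2 t q.2 := by
              simp only [hb2]
              ring
    have e6 := ENNReal.lintegral_mul_le_Lp_mul_Lq ν (Real.HolderConjugate.two_two)
      (f := fun t => ENNReal.ofReal (1 / |x' - t|)) (g := fun t => ENNReal.ofReal (√(b2 t q.2)))
      (by
        apply Measurable.aemeasurable
        fun_prop)
      (by
        apply Measurable.aemeasurable
        simp only [hb2]
        fun_prop)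
    have e7 : ∀ t, ENNReal.ofReal (1 / |x' - t|) ^ (2 : ℝ) = ENNReal.ofReal (1 / (x' - t) ^ 2) := by
      intro t
      rw [ENNReal.rpow_two, ← ENNReal.ofReal_pow (by positivity), div_pow, one_pow, sq_abs]
    have e8 : ∀ t, ENNReal.ofReal (√(b2 t q.2)) ^ (2 : ℝ) = ENNReal.ofReal (b2 t q.2) := by
      intro t
      rw [ENNReal.rpow_two, ← ENNReal.ofReal_pow (by positivity), Real.sq_sqrt]
      simp only [hb2]
      positivity
    simp_rw [e7, e8] at e6
    have e9 := e5.trans e6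
    calc ‖GG k g (q + (x - x', 0)) - GG k g q‖ₑ ^ 2
        ≤ (I ^ (1 / (2 : ℝ)) * (∫⁻ t, ENNReal.ofReal (b2 t q.2) ∂ν) ^ (1 / (2 : ℝ))) ^ 2 :=
          pow_le_pow_left₀ zero_le e9 2
      _ = I * ∫⁻ t, ENNReal.ofReal (b2 t q.2) ∂ν := by
          rw [mul_pow, ← ENNReal.rpow_natCast, ← ENNReal.rpow_natCast, ← ENNReal.rpow_mul,
            ← ENNReal.rpow_mul]
          norm_num
  have hb2m : Measurable fun p : (ℝ × ℝ) × ℝ => ENNReal.ofReal (b2 p.2 p.1.2) := by
    simp only [hb2]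
    fun_prop
  have hin : ∀ t, ∫⁻ q in cone 1 x', ENNReal.ofReal (b2 t q.2) ≤
      ENNReal.ofReal (2916 * l ^ 2) * ENNReal.ofReal (1 / (x' - t) ^ 2) := by
    intro t
    rcases eq_or_ne (x' - t) 0 with h | h
    · simp only [hb2, h]
      simp
    · have h1 : 0 < |x' - t| := abs_pos.2 h
      have h2 := cone_int x' |x' - t| (2916 * l ^ 2 * (x' - t) ^ 2) h1 (by positivity)
      rw [sq_abs] at h2
      refine h2.trans (le_of_eq ?_)
      rw [← ENNReal.ofReal_mul (by positivity)]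
      congr 1
      rw [show |x' - t| ^ 4 = (|x' - t| ^ 2) ^ 2 by ring, sq_abs]
      field_simp
  calc ∫⁻ q in cone 1 x', ‖GG k g (q + (x - x', 0)) - GG k g q‖ₑ ^ 2
      ≤ ∫⁻ q in cone 1 x', I * ∫⁻ t, ENNReal.ofReal (b2 t q.2) ∂ν :=
        setLIntegral_mono' hcm hpt
    _ = I * ∫⁻ q in cone 1 x', ∫⁻ t, ENNReal.ofReal (b2 t q.2) ∂ν := by
        rw [lintegral_const_mul _ hb2m.lintegral_prod_right']
    _ = I * ∫⁻ t, (∫⁻ q in cone 1 x', ENNReal.ofReal (b2 t q.2)) ∂ν := by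
        rw [lintegral_lintegral_swap (f := fun (q : ℝ × ℝ) t => ENNReal.ofReal (b2 t q.2))
          hb2m.aemeasurable]
    _ ≤ I * ∫⁻ t, ENNReal.ofReal (2916 * l ^ 2) * ENNReal.ofReal (1 / (x' - t) ^ 2) ∂ν := by
        exact mul_le_mul_right (lintegral_mono hin) _
    _ = I * (ENNReal.ofReal (2916 * l ^ 2) * I) := by
        rw [lintegral_const_mul _ (by fun_prop)]
    _ ≤ (ENNReal.ofReal (8 / l) * M) * (ENNReal.ofReal (2916 * l ^ 2) *
          (ENNReal.ofReal (8 / l) * M)) := by gcongr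
    _ = (ENNReal.ofReal (8 / l) * ENNReal.ofReal (2916 * l ^ 2) * ENNReal.ofReal (8 / l)) *
          M ^ 2 := by ring
    _ = ENNReal.ofReal 186624 * M ^ 2 := by
        congr 1
        rw [← ENNReal.ofReal_mul (by positivity), ← ENNReal.ofReal_mul (by positivity)]
        congr 1
        field_simp
        norm_num

theorem kz_bd (u y : ℝ) (hy : 0 < y) : |kz u y| ≤ 1 / y ^ 2 := by
  have h0 : 0 < u ^ 2 + y ^ 2 := by positivity
  have hp := Real.pi_gt_three
  have hp0 := Real.pi_pos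
  unfold kz
  rw [abs_div, abs_of_pos (show 0 < π * (u ^ 2 + y ^ 2) ^ 2 by positivity), abs_neg,
    div_le_div_iff₀ (by positivity) (by positivity), abs_mul, abs_mul, abs_of_pos hy,
    abs_of_pos (by norm_num : (0 : ℝ) < 2)]
  have h1 : 2 * |u| * y ≤ u ^ 2 + y ^ 2 := by nlinarith [sq_nonneg (|u| - y), sq_abs u]
  have h2 : y ^ 2 ≤ u ^ 2 + y ^ 2 := by nlinarith [sq_nonneg u]
  calc 2 * |u| * y * y ^ 2 ≤ (u ^ 2 + y ^ 2) * (u ^ 2 + y ^ 2) :=
        mul_le_mul h1 h2 (by positivity) h0.le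
    _ ≤ 1 * (π * (u ^ 2 + y ^ 2) ^ 2) := by nlinarith [sq_nonneg (u ^ 2 + y ^ 2)]

theorem ky_bd (u y : ℝ) (hy : 0 < y) : |ky u y| ≤ 1 / y ^ 2 := by
  have h0 : 0 < u ^ 2 + y ^ 2 := by positivity
  have hp := Real.pi_gt_three
  have hp0 := Real.pi_pos
  unfold ky
  rw [abs_div, abs_of_pos (show 0 < π * (u ^ 2 + y ^ 2) ^ 2 by positivity),
    div_le_div_iff₀ (by positivity) (by positivity)]
  have h1 : |u ^ 2 - y ^ 2| ≤ u ^ 2 + y ^ 2 := by
    rw [abs_le]
    constructor <;> nlinarith [sq_nonneg u, sq_nonneg y]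
  have h2 : y ^ 2 ≤ u ^ 2 + y ^ 2 := by nlinarith [sq_nonneg u]
  calc |u ^ 2 - y ^ 2| * y ^ 2 ≤ (u ^ 2 + y ^ 2) * (u ^ 2 + y ^ 2) :=
        mul_le_mul h1 h2 (by positivity) h0.le
    _ ≤ 1 * (π * (u ^ 2 + y ^ 2) ^ 2) := by nlinarith [sq_nonneg (u ^ 2 + y ^ 2)]

theorem kz_meas : Measurable fun p : ℝ × ℝ => kz p.1 p.2 := by
  unfold kz
  fun_prop

theorem ky_meas : Measurable fun p : ℝ × ℝ => ky p.1 p.2 := by
  unfold ky
  fun_prop

/-- `ℓ²` triangle inequality for two entries -/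
theorem two_add (a b c d : ℝ≥0∞) :
    ((a + c) ^ 2 + (b + d) ^ 2) ^ (1 / (2 : ℝ)) ≤
      (a ^ 2 + b ^ 2) ^ (1 / (2 : ℝ)) + (c ^ 2 + d ^ 2) ^ (1 / (2 : ℝ)) := by
  have h := ENNReal.Lp_add_le (Finset.univ : Finset (Fin 2)) ![a, b] ![c, d] (p := 2) (by norm_num)
  simp only [Fin.sum_univ_two, Matrix.cons_val_zero, Matrix.cons_val_one, ENNReal.rpow_two] at h
  simpa using h

theorem sq_half (a : ℝ≥0∞) : (a ^ (1 / (2 : ℝ))) ^ (2 : ℝ) = a := by
  rw [← ENNReal.rpow_mul]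
  norm_num

theorem main : S_krn := by
  refine ⟨1000, by norm_num, fun g hg r h0 x hx x' hx' => ?_⟩
  set M := MM volume (fun y => ‖g y‖ₑ) x' with hM
  have hcm : ∀ z : ℝ, MeasurableSet (cone 1 z) := by
    intro z
    apply measurableSet_lt
    · fun_prop
    · fun_prop
  have hz := dif_int kz_meas kz_bd kz_deriv kz_bound hg h0 hx hx'
  have hy := dif_int ky_meas ky_bd ky_deriv ky_bound hg h0 hx hx'
  have mz := meas_GG kz_meas hg
  have my := meas_GG ky_meas hg
  set c : ℝ × ℝ := (x - x', 0) with hc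
  have hT : ∫⁻ q in cone 1 x, G2 g q = ∫⁻ q in cone 1 x', G2 g (q + c) := by
    rw [← lintegral_indicator (hcm x), ← lintegral_indicator (hcm x'),
      ← lintegral_add_right_eq_self _ c]
    apply lintegral_congr
    intro q
    have h1 : q + c ∈ cone 1 x ↔ q ∈ cone 1 x' := by
      show |q.1 + (x - x') - x| < 1 * (q.2 + 0) ↔ |q.1 - x'| < 1 * q.2
      rw [show q.1 + (x - x') - x = q.1 - x' by ring, add_zero]
    by_cases h : q ∈ cone 1 x'
    · rw [indicator_of_mem h, indicator_of_mem (h1.2 h)]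
    · rw [indicator_of_notMem h, indicator_of_notMem (fun h2 => h (h1.1 h2))]
  set R : ℝ × ℝ → ℝ≥0∞ := fun q => ‖GG kz g (q + c) - GG kz g q‖ₑ ^ 2 +
    ‖GG ky g (q + c) - GG ky g q‖ₑ ^ 2 with hR
  have htr : Measurable fun q : ℝ × ℝ => q + c := measurable_add_const c
  have hRm : Measurable R := by
    have h1 : StronglyMeasurable fun q => GG kz g (q + c) - GG kz g q :=
      (mz.comp_measurable htr).sub mz
    have h2 : StronglyMeasurable fun q => GG ky g (q + c) - GG ky g q :=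
      (my.comp_measurable htr).sub my
    exact (h1.enorm.pow_const 2).add (h2.enorm.pow_const 2)
  have hGm : Measurable (G2 g) := by
    exact (mz.enorm.pow_const 2).add (my.enorm.pow_const 2)
  have hpt : ∀ q, G2 g (q + c) ≤ ((G2 g q) ^ (1 / (2 : ℝ)) + (R q) ^ (1 / (2 : ℝ))) ^ (2 : ℝ) := by
    intro q
    have h1 : ‖GG kz g (q + c)‖ₑ ≤ ‖GG kz g q‖ₑ + ‖GG kz g (q + c) - GG kz g q‖ₑ := by
      have := enorm_add_le (GG kz g q) (GG kz g (q + c) - GG kz g q)
      rwa [add_sub_cancel] at this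
    have h2 : ‖GG ky g (q + c)‖ₑ ≤ ‖GG ky g q‖ₑ + ‖GG ky g (q + c) - GG ky g q‖ₑ := by
      have := enorm_add_le (GG ky g q) (GG ky g (q + c) - GG ky g q)
      rwa [add_sub_cancel] at this
    have h3 : G2 g (q + c) ≤ (‖GG kz g q‖ₑ + ‖GG kz g (q + c) - GG kz g q‖ₑ) ^ 2 +
        (‖GG ky g q‖ₑ + ‖GG ky g (q + c) - GG ky g q‖ₑ) ^ 2 :=
      add_le_add (pow_le_pow_left₀ zero_le h1 2) (pow_le_pow_left₀ zero_le h2 2)
    have h4 := two_add ‖GG kz g q‖ₑ ‖GG ky g q‖ₑ ‖GG kz g (q + c) - GG kz g q‖ₑ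
      ‖GG ky g (q + c) - GG ky g q‖ₑ
    have h5 := ENNReal.rpow_le_rpow h4 (by norm_num : (0 : ℝ) ≤ 2)
    rw [sq_half] at h5
    exact h3.trans h5
  have hsq : SF g x ≤ (∫⁻ q in cone 1 x', ((G2 g q) ^ (1 / (2 : ℝ)) +
      (R q) ^ (1 / (2 : ℝ))) ^ (2 : ℝ)) ^ (1 / (2 : ℝ)) := by
    unfold SF SG
    rw [hT]
    apply ENNReal.rpow_le_rpow _ (by norm_num)
    exact lintegral_mono hpt
  have hmin := ENNReal.lintegral_Lp_add_le (μ := volume.restrict (cone 1 x'))
    (f := fun q => (G2 g q) ^ (1 / (2 : ℝ))) (g := fun q => (R q) ^ (1 / (2 : ℝ))) (p := 2)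
    (hGm.pow_const _).aemeasurable (hRm.pow_const _).aemeasurable (by norm_num)
  simp only [Pi.add_apply, sq_half] at hmin
  have hlast : (∫⁻ q in cone 1 x', R q) ^ (1 / (2 : ℝ)) ≤ 1000 * M := by
    have h1 : ∫⁻ q in cone 1 x', R q ≤ (1000 * M) ^ 2 := by
      have h2 : Measurable fun q => ‖GG kz g (q + c) - GG kz g q‖ₑ ^ 2 :=
        (((mz.comp_measurable htr).sub mz).enorm.pow_const 2)
      calc ∫⁻ q in cone 1 x', R q
          = (∫⁻ q in cone 1 x', ‖GG kz g (q + c) - GG kz g q‖ₑ ^ 2) +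
            ∫⁻ q in cone 1 x', ‖GG ky g (q + c) - GG ky g q‖ₑ ^ 2 := lintegral_add_left h2 _
        _ ≤ ENNReal.ofReal 186624 * M ^ 2 + ENNReal.ofReal 186624 * M ^ 2 := add_le_add hz hy
        _ = ENNReal.ofReal 373248 * M ^ 2 := by
            rw [← add_mul, ← ENNReal.ofReal_add (by norm_num) (by norm_num)]
            norm_num
        _ ≤ ENNReal.ofReal 1000000 * M ^ 2 := by
            gcongr
            norm_num
        _ = (1000 * M) ^ 2 := by
            rw [mul_pow]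
            congr 1
            norm_num
    calc (∫⁻ q in cone 1 x', R q) ^ (1 / (2 : ℝ)) ≤ ((1000 * M) ^ 2) ^ (1 / (2 : ℝ)) :=
          ENNReal.rpow_le_rpow h1 (by norm_num)
      _ = 1000 * M := by
          rw [← ENNReal.rpow_two, ← ENNReal.rpow_mul]
          norm_num
  exact hsq.trans (hmin.trans (add_le_add le_rfl hlast))

end Pool.Agent.U95.GL
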