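import Pool.Agent.U481.GL.Stm
import Pool.Agent.U211.HW.Kernel

set_option autoImplicit false

/-!
Project GL (helper481, MP_842e08_an), package KRN (helper95), first part: the estimates of the
kernels.
-/

open MeasureTheory Filter Topology Set
open scoped ENNReal NNReal Real

namespace Pool.Agent.U95.GL

open Pool.Agent.U481.HW Pool.Agent.U481.GL

/-- the tail of `|g| / |x' - t|^2` -/
theorem ann {g : ℝ → ℂ} (hg : Integrable g) {r : ℤ × ℤ} (h0 : ∀ y ∈ D3 r, g y = 0) {x' : ℝ}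
    (hx' : x' ∈ DD r) :
    ∫⁻ t, ENNReal.ofReal (1 / (x' - t) ^ 2) * ‖g t‖ₑ ≤
      ENNReal.ofReal (8 / 2 ^ r.1) * MM volume (fun y => ‖g y‖ₑ) x' := by
  have hl : (0 : ℝ) < 2 ^ r.1 := by positivity
  set l : ℝ := 2 ^ r.1 with hldef
  set M := MM volume (fun y => ‖g y‖ₑ) x' with hM
  have hpt : ∀ y : ℝ, ENNReal.ofReal (1 / (x' - y) ^ 2) * ‖g y‖ₑ ≤
      ∑' k : ℕ, ENNReal.ofReal (1 / (4 ^ k * l ^ 2)) *
        (Ioo (x' - 2 ^ (k + 1) * l) (x' + 2 ^ (k + 1) * l)).indicator (fun y => ‖g y‖ₑ) y := by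
    intro y
    by_cases hy : y ∈ D3 r
    · rw [h0 y hy]
      simp
    · have h2 := Pool.Agent.U211.HW.Kernel.dist_ge hx' hy
      obtain ⟨k, hk1, hk2⟩ := exists_nat_pow_near (x := |x' - y| / l) (y := (2 : ℝ))
        (by rw [le_div_iff₀ hl, one_mul]; exact h2) one_lt_two
      rw [le_div_iff₀ hl] at hk1
      rw [div_lt_iff₀ hl] at hk2
      refine le_trans ?_ (ENNReal.le_tsum k)
      have hmem : y ∈ Ioo (x' - 2 ^ (k + 1) * l) (x' + 2 ^ (k + 1) * l) := by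
        rw [abs_lt] at hk2
        exact ⟨by linarith [hk2.2], by linarith [hk2.1]⟩
      rw [indicator_of_mem hmem]
      refine mul_le_mul_left ?_ _
      apply ENNReal.ofReal_le_ofReal
      have h5 : (4 : ℝ) ^ k * l ^ 2 ≤ (x' - y) ^ 2 := by
        have : (4 : ℝ) ^ k = 2 ^ k * 2 ^ k := by rw [← mul_pow]; norm_num
        rw [this, ← sq_abs (x' - y)]
        calc (2 : ℝ) ^ k * 2 ^ k * l ^ 2 = (2 ^ k * l) * (2 ^ k * l) := by ring
          _ ≤ |x' - y| * |x' - y| := mul_le_mul hk1 hk1 (by positivity) (abs_nonneg _)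
          _ = _ := by ring
      exact one_div_le_one_div_of_le (by positivity) h5
  have hmeas : ∀ k : ℕ, AEMeasurable (fun y : ℝ => ENNReal.ofReal (1 / (4 ^ k * l ^ 2)) *
      (Ioo (x' - 2 ^ (k + 1) * l) (x' + 2 ^ (k + 1) * l)).indicator (fun y => ‖g y‖ₑ) y) volume := by
    intro k
    exact (hg.aestronglyMeasurable.enorm.indicator measurableSet_Ioo).const_mul _
  have hterm : ∀ k : ℕ, (∫⁻ y : ℝ, ENNReal.ofReal (1 / (4 ^ k * l ^ 2)) *
      (Ioo (x' - 2 ^ (k + 1) * l) (x' + 2 ^ (k + 1) * l)).indicator (fun y => ‖g y‖ₑ) y) ≤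
      ENNReal.ofReal (4 / l * (1 / 2) ^ k) * M := by
    intro k
    rw [lintegral_const_mul'' _ (hg.aestronglyMeasurable.enorm.indicator measurableSet_Ioo),
      lintegral_indicator measurableSet_Ioo]
    have hpos : (0 : ℝ) < 2 ^ (k + 1) * l := by positivity
    have h6 := Pool.Agent.U211.HW.Kernel.int_le (fun y => ‖g y‖ₑ) (a := x' - 2 ^ (k + 1) * l)
      (b := x' + 2 ^ (k + 1) * l) (x := x') (by linarith) (by linarith)
    calc ENNReal.ofReal (1 / (4 ^ k * l ^ 2)) *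
          ∫⁻ y in Ioo (x' - 2 ^ (k + 1) * l) (x' + 2 ^ (k + 1) * l), ‖g y‖ₑ
        ≤ ENNReal.ofReal (1 / (4 ^ k * l ^ 2)) *
          (M * ENNReal.ofReal (x' + 2 ^ (k + 1) * l - (x' - 2 ^ (k + 1) * l))) := by gcongr
      _ = ENNReal.ofReal (1 / (4 ^ k * l ^ 2) *
            (x' + 2 ^ (k + 1) * l - (x' - 2 ^ (k + 1) * l))) * M := by
          rw [ENNReal.ofReal_mul (by positivity)]
          ring
      _ = ENNReal.ofReal (4 / l * (1 / 2) ^ k) * M := by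
          congr 2
          have : (4 : ℝ) ^ k = 2 ^ k * 2 ^ k := by rw [← mul_pow]; norm_num
          rw [this, one_div, one_div, inv_pow, pow_succ]
          field_simp
          ring
  calc ∫⁻ t, ENNReal.ofReal (1 / (x' - t) ^ 2) * ‖g t‖ₑ
      ≤ ∫⁻ y : ℝ, ∑' k : ℕ, ENNReal.ofReal (1 / (4 ^ k * l ^ 2)) *
        (Ioo (x' - 2 ^ (k + 1) * l) (x' + 2 ^ (k + 1) * l)).indicator (fun y => ‖g y‖ₑ) y :=
        lintegral_mono hpt
    _ = ∑' k : ℕ, ∫⁻ y : ℝ, ENNReal.ofReal (1 / (4 ^ k * l ^ 2)) *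
        (Ioo (x' - 2 ^ (k + 1) * l) (x' + 2 ^ (k + 1) * l)).indicator (fun y => ‖g y‖ₑ) y :=
        lintegral_tsum hmeas
    _ ≤ ∑' k : ℕ, ENNReal.ofReal (4 / l * (1 / 2) ^ k) * M := ENNReal.tsum_le_tsum hterm
    _ = ENNReal.ofReal (8 / l) * M := by
        rw [ENNReal.tsum_mul_right]
        congr 1
        rw [← ENNReal.ofReal_tsum_of_nonneg (fun k => by positivity)
          (summable_geometric_two.mul_left (4 / l)), tsum_mul_left, tsum_geometric_two]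
        congr 1
        ring

theorem kz_deriv (u y : ℝ) (hy : 0 < y) :
    HasDerivAt (fun u => kz u y) ((6 * u ^ 2 * y - 2 * y ^ 3) / (π * (u ^ 2 + y ^ 2) ^ 3)) u := by
  have hp := Real.pi_pos
  have h0 : 0 < u ^ 2 + y ^ 2 := by positivity
  have h1 : HasDerivAt (fun u : ℝ => -(2 * u * y)) (-(2 * 1 * y)) u :=
    (((hasDerivAt_id u).const_mul 2).mul_const y).neg
  have h2 : HasDerivAt (fun u : ℝ => π * (u ^ 2 + y ^ 2) ^ 2)
      (π * (2 * (u ^ 2 + y ^ 2) * (2 * u))) u := by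
    have h3 : HasDerivAt (fun u : ℝ => u ^ 2 + y ^ 2) (2 * u) u := by
      simpa using (hasDerivAt_pow 2 u).add_const (y ^ 2)
    have h4 := (h3.pow 2).const_mul π
    simpa using h4
  have h5 := h1.div h2 (by positivity)
  refine HasDerivAt.congr_deriv h5 ?_
  field_simp
  ring

theorem ky_deriv (u y : ℝ) (hy : 0 < y) :
    HasDerivAt (fun u => ky u y) ((-2 * u ^ 3 + 6 * u * y ^ 2) / (π * (u ^ 2 + y ^ 2) ^ 3)) u := by
  have hp := Real.pi_pos
  have h0 : 0 < u ^ 2 + y ^ 2 := by positivity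
  have h1 : HasDerivAt (fun u : ℝ => u ^ 2 - y ^ 2) (2 * u) u := by
    simpa using (hasDerivAt_pow 2 u).sub_const (y ^ 2)
  have h2 : HasDerivAt (fun u : ℝ => π * (u ^ 2 + y ^ 2) ^ 2)
      (π * (2 * (u ^ 2 + y ^ 2) * (2 * u))) u := by
    have h3 : HasDerivAt (fun u : ℝ => u ^ 2 + y ^ 2) (2 * u) u := by
      simpa using (hasDerivAt_pow 2 u).add_const (y ^ 2)
    have h4 := (h3.pow 2).const_mul π
    simpa using h4
  have h5 := h1.div h2 (by positivity)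
  refine HasDerivAt.congr_deriv h5 ?_
  field_simp
  ring

theorem bound_aux {u y N : ℝ} (hy : 0 < y) (hN : |N| ≤ 6 * √(u ^ 2 + y ^ 2) ^ 3) :
    |N / (π * (u ^ 2 + y ^ 2) ^ 3)| ≤ 2 / √(u ^ 2 + y ^ 2) ^ 3 := by
  have h0 : 0 < u ^ 2 + y ^ 2 := by positivity
  set ρ := √(u ^ 2 + y ^ 2) with hρ
  have h1 : 0 < ρ := Real.sqrt_pos.2 h0
  have h2 : u ^ 2 + y ^ 2 = ρ ^ 2 := (Real.sq_sqrt h0.le).symm
  rw [h2, abs_div, abs_of_pos (show 0 < π * (ρ ^ 2) ^ 3 by positivity), div_le_div_iff₀ (by positivity)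
    (by positivity)]
  have h3 : (0 : ℝ) < ρ ^ 3 := by positivity
  have h4 := Real.pi_gt_three
  calc |N| * ρ ^ 3 ≤ 6 * ρ ^ 3 * ρ ^ 3 := mul_le_mul_of_nonneg_right hN h3.le
    _ = 2 * (3 * (ρ ^ 2) ^ 3) := by ring
    _ ≤ 2 * (π * (ρ ^ 2) ^ 3) := by
        have : (0 : ℝ) ≤ (ρ ^ 2) ^ 3 := by positivity
        nlinarith

theorem kz_bound (u y : ℝ) (hy : 0 < y) :
    |(6 * u ^ 2 * y - 2 * y ^ 3) / (π * (u ^ 2 + y ^ 2) ^ 3)| ≤ 2 / √(u ^ 2 + y ^ 2) ^ 3 := by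
  apply bound_aux hy
  have h0 : 0 < u ^ 2 + y ^ 2 := by positivity
  set ρ := √(u ^ 2 + y ^ 2) with hρ
  have h1 : 0 < ρ := Real.sqrt_pos.2 h0
  have h2 : u ^ 2 + y ^ 2 = ρ ^ 2 := (Real.sq_sqrt h0.le).symm
  have h3 : y ≤ ρ := by
    rw [hρ]
    exact Real.le_sqrt_of_sq_le (by nlinarith [sq_nonneg u])
  have h4 : |3 * u ^ 2 - y ^ 2| ≤ 3 * ρ ^ 2 := by
    rw [← h2, abs_le]
    constructor <;> nlinarith [sq_nonneg u, sq_nonneg y]
  have h5 : 6 * u ^ 2 * y - 2 * y ^ 3 = 2 * y * (3 * u ^ 2 - y ^ 2) := by ring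
  rw [h5, abs_mul, abs_of_pos (by positivity : 0 < 2 * y)]
  calc 2 * y * |3 * u ^ 2 - y ^ 2| ≤ 2 * ρ * (3 * ρ ^ 2) :=
        mul_le_mul (by linarith) h4 (abs_nonneg _) (by positivity)
    _ = 6 * ρ ^ 3 := by ring

theorem ky_bound (u y : ℝ) (hy : 0 < y) :
    |(-2 * u ^ 3 + 6 * u * y ^ 2) / (π * (u ^ 2 + y ^ 2) ^ 3)| ≤ 2 / √(u ^ 2 + y ^ 2) ^ 3 := by
  apply bound_aux hy
  have h0 : 0 < u ^ 2 + y ^ 2 := by positivity
  set ρ := √(u ^ 2 + y ^ 2) with hρ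
  have h1 : 0 < ρ := Real.sqrt_pos.2 h0
  have h2 : u ^ 2 + y ^ 2 = ρ ^ 2 := (Real.sq_sqrt h0.le).symm
  have h3 : |u| ≤ ρ := by
    rw [hρ]
    exact Real.abs_le_sqrt (by nlinarith [sq_nonneg y])
  have h4 : |3 * y ^ 2 - u ^ 2| ≤ 3 * ρ ^ 2 := by
    rw [← h2, abs_le]
    constructor <;> nlinarith [sq_nonneg u, sq_nonneg y]
  have h5 : -2 * u ^ 3 + 6 * u * y ^ 2 = 2 * (u * (3 * y ^ 2 - u ^ 2)) := by ring
  rw [h5, abs_mul, abs_mul, abs_of_pos (by norm_num : (0 : ℝ) < 2)]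
  calc 2 * (|u| * |3 * y ^ 2 - u ^ 2|) ≤ 2 * (ρ * (3 * ρ ^ 2)) := by
        have := mul_le_mul h3 h4 (abs_nonneg _) h1.le
        linarith
    _ = 6 * ρ ^ 3 := by ring

/-- the geometry: a point between `x` and `x'` -/
theorem geo {r : ℤ × ℤ} {x x' t w y : ℝ} (hx : x ∈ DD r) (hx' : x' ∈ DD r) (ht : t ∉ D3 r)
    (hw : |w| < y) {u : ℝ} (hu : u ∈ uIcc (x' + w - t) (x + w - t)) :
    2 / √(u ^ 2 + y ^ 2) ^ 3 ≤ 54 / √((x' - t) ^ 2 + y ^ 2) ^ 3 := by
  have hy : 0 < y := lt_of_le_of_lt (abs_nonneg _) hw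
  have hz : u - w + t ∈ DD r := by
    have h1 : u - w + t ∈ uIcc x' x := by
      rw [mem_uIcc] at hu ⊢
      rcases hu with h | h
      · left; constructor <;> linarith [h.1, h.2]
      · right; constructor <;> linarith [h.1, h.2]
    exact (Set.ordConnected_Ico.uIcc_subset hx' hx) h1
  have h1 := Pool.Agent.U211.HW.Kernel.dist_ge hz ht
  have h2 := Pool.Agent.U211.HW.Kernel.dist_le hx' hz
  have h3 : |x' - t| ≤ 2 * |u - w| := by
    have h4 : |x' - t| ≤ |x' - (u - w + t)| + |(u - w + t) - t| := abs_sub_le _ _ _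
    have h5 : |(u - w + t) - t| = |u - w| := by congr 1; ring
    rw [h5] at h4 h1
    linarith
  have h4 : |u - w| ≤ |u| + y := by
    have := abs_sub u w
    linarith
  have h5 : (x' - t) ^ 2 ≤ 8 * (u ^ 2 + y ^ 2) := by
    have h6 : |x' - t| ≤ 2 * (|u| + y) := by linarith
    have h7 : |x' - t| ^ 2 ≤ (2 * (|u| + y)) ^ 2 := pow_le_pow_left₀ (abs_nonneg _) h6 2
    rw [sq_abs] at h7
    nlinarith [sq_nonneg (|u| - y), sq_abs u]
  have h0 : 0 < u ^ 2 + y ^ 2 := by positivity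
  have h0' : 0 < (x' - t) ^ 2 + y ^ 2 := by positivity
  have h6 : √((x' - t) ^ 2 + y ^ 2) ≤ 3 * √(u ^ 2 + y ^ 2) := by
    have h7 : √((x' - t) ^ 2 + y ^ 2) ≤ √(9 * (u ^ 2 + y ^ 2)) := by
      apply Real.sqrt_le_sqrt
      nlinarith [sq_nonneg u]
    rw [Real.sqrt_mul (by norm_num), show √(9 : ℝ) = 3 by
      rw [show (9 : ℝ) = 3 ^ 2 by norm_num]; exact Real.sqrt_sq (by norm_num)] at h7
    exact h7
  have hR : 0 < √((x' - t) ^ 2 + y ^ 2) := Real.sqrt_pos.2 h0'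
  have hρ : 0 < √(u ^ 2 + y ^ 2) := Real.sqrt_pos.2 h0
  rw [div_le_div_iff₀ (by positivity) (by positivity)]
  have h8 : √((x' - t) ^ 2 + y ^ 2) ^ 3 ≤ (3 * √(u ^ 2 + y ^ 2)) ^ 3 := pow_le_pow_left₀ hR.le h6 3
  nlinarith

/-- difference of the kernels, for a function with a good derivative -/
theorem diff_aux {k k' : ℝ → ℝ → ℝ} (hk : ∀ u y, 0 < y → HasDerivAt (fun u => k u y) (k' u y) u)
    (hb : ∀ u y, 0 < y → |k' u y| ≤ 2 / √(u ^ 2 + y ^ 2) ^ 3)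
    {r : ℤ × ℤ} {x x' t w y : ℝ} (hx : x ∈ DD r) (hx' : x' ∈ DD r) (ht : t ∉ D3 r)
    (hw : |w| < y) :
    |k (x + w - t) y - k (x' + w - t) y| ^ 2 ≤
      2916 * (2 ^ r.1) ^ 2 / ((x' - t) ^ 2 + y ^ 2) ^ 3 := by
  have hy : 0 < y := lt_of_le_of_lt (abs_nonneg _) hw
  have h0' : 0 < (x' - t) ^ 2 + y ^ 2 := by positivity
  have hR : 0 < √((x' - t) ^ 2 + y ^ 2) := Real.sqrt_pos.2 h0'
  have h1 := Convex.norm_image_sub_le_of_norm_hasDerivWithin_le (𝕜 := ℝ)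
    (f := fun u => k u y) (f' := fun u => k' u y) (C := 54 / √((x' - t) ^ 2 + y ^ 2) ^ 3)
    (s := uIcc (x' + w - t) (x + w - t)) (x := x' + w - t) (y := x + w - t)
    (fun u _ => (hk u y hy).hasDerivWithinAt)
    (fun u hu => by
      rw [Real.norm_eq_abs]
      exact (hb u y hy).trans (geo hx hx' ht hw hu))
    (convex_uIcc _ _) left_mem_uIcc right_mem_uIcc
  rw [Real.norm_eq_abs, Real.norm_eq_abs] at h1
  have h2 : |x + w - t - (x' + w - t)| ≤ 2 ^ r.1 := by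
    have : x + w - t - (x' + w - t) = x - x' := by ring
    rw [this]
    exact Pool.Agent.U211.HW.Kernel.dist_le hx hx'
  have h3 : |k (x + w - t) y - k (x' + w - t) y| ≤
      54 / √((x' - t) ^ 2 + y ^ 2) ^ 3 * 2 ^ r.1 :=
    h1.trans (mul_le_mul_of_nonneg_left h2 (by positivity))
  refine (pow_le_pow_left₀ (abs_nonneg _) h3 2).trans (le_of_eq ?_)
  have h4 : (√((x' - t) ^ 2 + y ^ 2) ^ 3) ^ 2 = ((x' - t) ^ 2 + y ^ 2) ^ 3 := by
    rw [← pow_mul, show 3 * 2 = 2 * 3 by norm_num, pow_mul, Real.sq_sqrt h0'.le]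
  rw [mul_pow, div_pow, h4]
  ring

/-- the integral over a cone -/
theorem cone_int (x a B : ℝ) (ha : 0 < a) (hB : 0 ≤ B) :
    ∫⁻ q in cone 1 x, ENNReal.ofReal (B / (a ^ 2 + q.2 ^ 2) ^ 3) ≤ ENNReal.ofReal (B / a ^ 4) := by
  have hcm : MeasurableSet (cone 1 x) := by
    apply measurableSet_lt
    · fun_prop
    · fun_prop
  have hm : Measurable fun q : ℝ × ℝ => ENNReal.ofReal (B / (a ^ 2 + q.2 ^ 2) ^ 3) := by
    fun_prop
  rw [← lintegral_indicator hcm, Measure.volume_eq_prod,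
    lintegral_prod_symm _ (hm.indicator hcm).aemeasurable]
  have h1 : ∀ y : ℝ, ∫⁻ z : ℝ, (cone 1 x).indicator
      (fun q : ℝ × ℝ => ENNReal.ofReal (B / (a ^ 2 + q.2 ^ 2) ^ 3)) (z, y) =
      (Ioi (0 : ℝ)).indicator (fun y => ENNReal.ofReal (2 * y * B / (a ^ 2 + y ^ 2) ^ 3)) y := by
    intro y
    have h2 : ∀ z : ℝ, (cone 1 x).indicator
        (fun q : ℝ × ℝ => ENNReal.ofReal (B / (a ^ 2 + q.2 ^ 2) ^ 3)) (z, y) =
        (Ioo (x - y) (x + y)).indicator (fun _ => ENNReal.ofReal (B / (a ^ 2 + y ^ 2) ^ 3)) z := by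
      intro z
      have h3 : (z, y) ∈ cone 1 x ↔ z ∈ Ioo (x - y) (x + y) := by
        show |z - x| < 1 * y ↔ _
        rw [one_mul, abs_lt, mem_Ioo]
        constructor
        · rintro ⟨h4, h5⟩
          constructor <;> linarith
        · rintro ⟨h4, h5⟩
          constructor <;> linarith
      by_cases hz : z ∈ Ioo (x - y) (x + y)
      · rw [indicator_of_mem hz, indicator_of_mem (h3.2 hz)]
      · rw [indicator_of_notMem hz, indicator_of_notMem (fun h => hz (h3.1 h))]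
    simp_rw [h2]
    rw [lintegral_indicator measurableSet_Ioo, setLIntegral_const, Real.volume_Ioo]
    by_cases hy : y ∈ Ioi (0 : ℝ)
    · rw [indicator_of_mem hy, ← ENNReal.ofReal_mul (by positivity)]
      congr 1
      ring
    · rw [indicator_of_notMem hy]
      have : y ≤ 0 := not_lt.1 hy
      rw [ENNReal.ofReal_of_nonpos (by linarith : x + y - (x - y) ≤ 0), mul_zero]
  simp_rw [h1]
  rw [lintegral_indicator measurableSet_Ioi]
  have hg : ∀ y : ℝ, HasDerivAt (fun y : ℝ => -(B / (2 * (a ^ 2 + y ^ 2) ^ 2)))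
      (2 * y * B / (a ^ 2 + y ^ 2) ^ 3) y := by
    intro y
    have h0 : 0 < a ^ 2 + y ^ 2 := by positivity
    have h3 : HasDerivAt (fun y : ℝ => a ^ 2 + y ^ 2) (2 * y) y := by
      simpa using (hasDerivAt_pow 2 y).const_add (a ^ 2)
    have h4 : HasDerivAt (fun y : ℝ => 2 * (a ^ 2 + y ^ 2) ^ 2)
        (2 * (2 * (a ^ 2 + y ^ 2) * (2 * y))) y := by
      simpa using (h3.pow 2).const_mul 2
    have h5 := ((hasDerivAt_const y B).div h4 (by positivity)).neg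
    refine HasDerivAt.congr_deriv h5 ?_
    field_simp
    ring
  have hpos : ∀ y ∈ Ioi (0 : ℝ), 0 ≤ 2 * y * B / (a ^ 2 + y ^ 2) ^ 3 := by
    intro y hy
    have : (0 : ℝ) < y := hy
    positivity
  have htend : Tendsto (fun y : ℝ => -(B / (2 * (a ^ 2 + y ^ 2) ^ 2))) atTop (𝓝 0) := by
    rw [← neg_zero]
    apply Tendsto.neg
    apply Tendsto.div_atTop tendsto_const_nhds
    apply Tendsto.const_mul_atTop (by norm_num)
    apply (tendsto_pow_atTop (by norm_num)).comp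
    exact tendsto_atTop_add_const_left _ _ (tendsto_pow_atTop (by norm_num))
  have hint := integrableOn_Ioi_deriv_of_nonneg (hg 0).continuousAt.continuousWithinAt
    (fun y _ => hg y) hpos htend
  have hval := integral_Ioi_of_hasDerivAt_of_nonneg (hg 0).continuousAt.continuousWithinAt
    (fun y _ => hg y) hpos htend
  rw [← ofReal_integral_eq_lintegral_ofReal hint
    ((ae_restrict_iff' measurableSet_Ioi).2 (Eventually.of_forall hpos)), hval]
  apply ENNReal.ofReal_le_ofReal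
  have h6 : (0 : ℝ) - -(B / (2 * (a ^ 2 + 0 ^ 2) ^ 2)) = B / a ^ 4 / 2 := by
    field_simp
    ring
  rw [h6]
  have : 0 ≤ B / a ^ 4 := by positivity
  linarith

end Pool.Agent.U95.GL
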